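import Pool.Agent.W259.GP.Main
import Pool.Agent.W259.GP.Fin2

/-! MP_3f7b2e_co: the worst-case Euclidean TSP constant in high dimensions satisfies
`limsup α'_d ≤ 1 / π`. -/

open Filter

namespace Pool.Agent.Results.MP_3f7b2e_co.OneOverPi

open Pool.Agent.H519R2.TSP

theorem result :
    limsup alpha' atTop ≤ 1 / Real.pi ∧
    limsup (fun d : ℕ => theta d ^ ((1 : ℝ) / d)) atTop ≤ √(Real.exp 1 / (2 * Real.pi)) :=
  ⟨Pool.Agent.W259.GP.limsup_alpha_pi Pool.Agent.W259.GP.s_main,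
    Pool.Agent.W259.GP.limsup_tt Pool.Agent.W259.GP.s_main⟩

end Pool.Agent.Results.MP_3f7b2e_co.OneOverPi
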